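import Pool.Agent.Zk46.NP2.Defs

/-! Module DIG of `Zk46/NP2`: the digits. -/

set_option autoImplicit false

namespace Pool.Agent.Zk20.NP2

open Finset Pool.Agent.Zk46.NP2
open Pool.Agent.W89.PW (fr)

lemma low_lt {b : ℕ} (D : ℕ → ℕ) (N : ℕ) (h : ∀ k < N, D k < b) :
    ∑ k ∈ range N, D k * b ^ k < b ^ N := by
  induction N with
  | zero => simp
  | succ N ih =>
    rw [sum_range_succ, pow_succ]
    have h1 := ih fun k hk => h k (by omega)
    have h2 : D N + 1 ≤ b := h N (by omega)
    have h3 : (D N + 1) * b ^ N ≤ b * b ^ N := Nat.mul_le_mul_right _ h2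
    nlinarith

lemma digit {b : ℕ} (hb : 0 < b) (D : ℕ → ℕ) (N : ℕ) (h : ∀ k < N, D k < b) (k : ℕ) (hk : k < N) :
    (∑ i ∈ range N, D i * b ^ i) / b ^ k % b = D k := by
  obtain ⟨M, rfl⟩ : ∃ M, N = k + (1 + M) := ⟨N - k - 1, by omega⟩
  rw [sum_range_add, sum_range_add]
  simp only [range_one, sum_singleton, add_zero]
  have h1 : ∑ x ∈ range M, D (k + (1 + x)) * b ^ (k + (1 + x)) =
      b ^ k * (b * ∑ x ∈ range M, D (k + (1 + x)) * b ^ x) := by
    rw [mul_sum, mul_sum]
    refine sum_congr rfl fun x _ => ?_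
    ring
  rw [h1]
  have h2 : ∑ x ∈ range k, D x * b ^ x + (D k * b ^ k +
      b ^ k * (b * ∑ x ∈ range M, D (k + (1 + x)) * b ^ x)) =
      ∑ x ∈ range k, D x * b ^ x + b ^ k * (D k + b * ∑ x ∈ range M, D (k + (1 + x)) * b ^ x) := by
    ring
  rw [h2, Nat.add_mul_div_left _ _ (by positivity),
    Nat.div_eq_of_lt (low_lt D k fun j hj => h j (by omega)), zero_add, Nat.add_mul_mod_self_left,
    Nat.mod_eq_of_lt (h k hk)]

/-- the digit function -/
def DD (L : ℕ) (m : ℕ → ℕ × ℕ) (k : ℕ) : ℕ :=
  if k = 0 then 1 else if k ≤ L then (m (L - k)).1 + 2 * (m (L - k)).2 else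
    if k = L + 1 then 1 else if k ≤ 2 * L + 1 then (m (k - (L + 2))).1 else 1

lemma sum_DD (b L : ℕ) (m : ℕ → ℕ × ℕ) :
    ∑ k ∈ range (2 * L + 3), DD L m k * b ^ k =
      b ^ (2 * L + 2) + b ^ (L + 1) + 1 +
        ∑ c ∈ range L, ((m c).1 * fr b L c + (m c).2 * lo b L c) := by
  have e1 : 2 * L + 3 = 1 + (L + (1 + (L + 1))) := by ring
  rw [e1, sum_range_add, sum_range_add, sum_range_add, sum_range_add]
  simp only [range_one, sum_singleton, add_zero]
  have h0 : DD L m 0 = 1 := by simp [DD]
  have h1 : ∑ x ∈ range L, DD L m (1 + x) * b ^ (1 + x) =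
      ∑ c ∈ range L, ((m c).1 + 2 * (m c).2) * b ^ (L - c) := by
    rw [← sum_range_reflect]
    refine sum_congr rfl fun x hx => ?_
    have hx' := mem_range.1 hx
    have h2 : DD L m (1 + (L - 1 - x)) = (m x).1 + 2 * (m x).2 := by
      unfold DD
      rw [if_neg (by omega), if_pos (by omega)]
      have : L - (1 + (L - 1 - x)) = x := by omega
      rw [this]
    rw [h2]
    congr 2
    omega
  have h2 : DD L m (1 + L) = 1 := by
    unfold DD
    rw [if_neg (by omega), if_neg (by omega), if_pos (by omega)]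
  have h3 : ∑ x ∈ range L, DD L m (1 + (L + (1 + x))) * b ^ (1 + (L + (1 + x))) =
      ∑ c ∈ range L, (m c).1 * b ^ (L + c + 2) := by
    refine sum_congr rfl fun x hx => ?_
    have hx' := mem_range.1 hx
    have h2 : DD L m (1 + (L + (1 + x))) = (m x).1 := by
      unfold DD
      rw [if_neg (by omega), if_neg (by omega), if_neg (by omega), if_pos (by omega)]
      have : 1 + (L + (1 + x)) - (L + 2) = x := by omega
      rw [this]
    rw [h2]
    congr 2
    omega
  have h4 : DD L m (1 + (L + (1 + L))) = 1 := by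
    unfold DD
    rw [if_neg (by omega), if_neg (by omega), if_neg (by omega), if_neg (by omega)]
  rw [h0, h1, h2, h3, h4]
  have h5 : ∑ c ∈ range L, ((m c).1 * fr b L c + (m c).2 * lo b L c) =
      ∑ c ∈ range L, (m c).1 * b ^ (L + c + 2) +
        ∑ c ∈ range L, ((m c).1 + 2 * (m c).2) * b ^ (L - c) := by
    rw [← sum_add_distrib]
    refine sum_congr rfl fun c _ => ?_
    unfold fr lo
    ring
  rw [h5]
  have e2 : 1 + (L + (1 + L)) = 2 * L + 2 := by ring
  have e3 : 1 + L = L + 1 := by ring
  rw [e2, e3]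
  ring

theorem t_DIG : S_DIG := by
  classical
  intro b t L hb ht m hm
  have hb0 : 0 < b := by omega
  set m' : ℕ → ℕ × ℕ := fun c => if h : c < L then m ⟨c, h⟩ else (0, 0) with hm'
  have hmc : ∀ c : Fin L, m' c = m c := fun c => by
    rw [hm']; simp
  have hbd : ∀ c : ℕ, (m' c).1 + 2 * (m' c).2 < b := by
    intro c
    by_cases hc : c < L
    · have h1 : m' c = m ⟨c, hc⟩ := by rw [hm']; simp [hc]
      rw [h1]
      have h2 := (Fintype.mem_piFinset.1 hm) ⟨c, hc⟩
      rw [mem_product, mem_range, mem_range] at h2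
      have h3 := ht c
      unfold sz at h2
      simp only at h2
      omega
    · have h1 : m' c = (0, 0) := by rw [hm']; simp [hc]
      rw [h1]; simpa using hb0
  have hDD : ∀ k < 2 * L + 3, DD L m' k < b := by
    intro k _
    have h1 := hbd (L - k)
    have h2 := hbd (k - (L + 2))
    unfold DD
    split_ifs <;> omega
  have hpv : pv b L m = ∑ k ∈ range (2 * L + 3), DD L m' k * b ^ k := by
    rw [sum_DD, pv]
    congr 1
    rw [← Fin.sum_univ_eq_sum_range (fun c => (m' c).1 * fr b L c + (m' c).2 * lo b L c) L]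
    refine sum_congr rfl fun c _ => ?_
    rw [hmc]
  refine ⟨?_, ?_, ?_, fun c => ⟨?_, ?_⟩⟩
  · unfold pv; omega
  · rw [hpv]; exact low_lt _ _ hDD
  · -- coprime
    rw [Nat.coprime_mul_iff_right]
    have hz : ∀ n : ℕ, n ≠ 0 → b ∣ b ^ n := fun n hn => dvd_pow_self b hn
    constructor
    · -- odd
      rw [Nat.coprime_two_right, Nat.odd_iff]
      have h1 : Even (b ^ (2 * L + 2) + b ^ (L + 1)) := by
        rw [Nat.even_add, Nat.even_pow, Nat.even_pow]
        simp
      have h2 : Even (∑ c : Fin L, ((m c).1 * fr b L c + (m c).2 * lo b L c)) := by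
        refine Finset.even_sum _ fun c _ => ?_
        have h3 : Even (fr b L c) := by
          unfold fr
          rw [Nat.even_add, Nat.even_pow, Nat.even_pow]
          have := c.2
          have h4 : L - (c : ℕ) ≠ 0 := by omega
          simp [h4]
        have h5 : Even (lo b L c) := by
          unfold lo
          exact even_two_mul _
        exact (h3.mul_left _).add (h5.mul_left _)
      unfold pv
      rw [Nat.even_iff] at h1 h2
      omega
    · have h1 : b ∣ b ^ (2 * L + 2) + b ^ (L + 1) +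
          ∑ c : Fin L, ((m c).1 * fr b L c + (m c).2 * lo b L c) := by
        refine dvd_add (dvd_add (hz _ (by omega)) (hz _ (by omega))) ?_
        refine dvd_sum fun c _ => ?_
        have := c.2
        unfold fr lo
        refine dvd_add (Dvd.dvd.mul_left (dvd_add (hz _ (by omega)) (hz _ (by omega))) _) ?_
        exact Dvd.dvd.mul_left (Dvd.dvd.mul_left (hz _ (by omega)) _) _
      obtain ⟨k, hk⟩ := h1
      have h2 : pv b L m = b * k + 1 := by
        rw [← hk]; unfold pv; ring
      rw [h2]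
      simp
  · have h1 : DD L m' (L + c + 2) = (m c).1 := by
      have := c.2
      unfold DD
      rw [if_neg (by omega), if_neg (by omega), if_neg (by omega), if_pos (by omega)]
      have h2 : L + (c : ℕ) + 2 - (L + 2) = c := by omega
      rw [h2, hmc]
    rw [hpv, digit hb0 _ _ hDD _ (by omega), h1]
  · have h1 : DD L m' (L - c) = (m c).1 + 2 * (m c).2 := by
      have := c.2
      unfold DD
      rw [if_neg (by omega), if_pos (by omega)]
      have h2 : L - (L - (c : ℕ)) = c := by omega
      rw [h2, hmc]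
    rw [hpv, digit hb0 _ _ hDD _ (by omega), h1]

end Pool.Agent.Zk20.NP2
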