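import Pool.Agent.Zk46.NP2.Defs
import Pool.Agent.W571.PW.Pt

/-! Module PT of `Zk46/NP2`: the pointwise bound. -/

set_option autoImplicit false

namespace Pool.Agent.Zk20.NP2

open Finset Pool.Agent.Zk46.NP2 Pool.Agent.Helper112
open Pool.Agent.H39R3.PB (ph ph_nonneg ph_le_one)
open Pool.Agent.H512R3.PBT6 (KK kap kap_pos kap_lt_one run)
open Pool.Agent.W571.PW.Pt (ph_le)
open Pool.Agent.W89.PW (fr fr_eq)

lemma fa_nonneg (b : ℕ) (t : ℕ → ℕ) (L c : ℕ) (x : ℝ) : 0 ≤ fa b t L c x :=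
  mul_nonneg (ph_nonneg _ _) (ph_nonneg _ _)

lemma fa_le_one (b : ℕ) (t : ℕ → ℕ) (L c : ℕ) (x : ℝ) : fa b t L c x ≤ 1 :=
  mul_le_one₀ (ph_le_one _ _) (ph_nonneg _ _) (ph_le_one _ _)

lemma fa_le_left (b : ℕ) (t : ℕ → ℕ) (L c : ℕ) (x : ℝ) :
    fa b t L c x ≤ ph (sz b t c) (fr b L c * x) :=
  mul_le_of_le_one_right (ph_nonneg _ _) (ph_le_one _ _)

lemma sz_bounds {b : ℕ} {t : ℕ → ℕ} (hb : 4 ≤ b) (ht : Ok b t) (c : ℕ) :
    2 ≤ sz b t c ∧ sz b t c ≤ b := by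
  have := ht c
  unfold sz
  omega

lemma block {b : ℕ} {t : ℕ → ℕ} (hb : 4 ≤ b) (ht : Ok b t) (q h a L c₀ : ℕ) (hq1 : 1 < q)
    (hq : q.Coprime (2 * b)) (ha : a.Coprime q) (hqh : q < b ^ h) (hL : c₀ + (2 * h + 2) ≤ L) :
    ∏ j ∈ range (2 * h + 2), fa b t L (c₀ + j) ((a : ℝ) / q) ≤ 1 - kap b := by
  have hb2 : 2 ≤ b := by omega
  obtain ⟨j, hj, h'⟩ := run hb2 q h a (L + 1) (c₀ + 1) hq1 hq ha hqh (by omega) (by omega)
  have e : Pool.Agent.H39R3.PB.fr b (L + 1) (c₀ + 1 + j) = fr b L (c₀ + j) := by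
    rw [fr_eq]; congr 1; ring
  rw [e] at h'
  have h1 := ph_le hb2 (sz_bounds hb ht (c₀ + j)).1 (sz_bounds hb ht (c₀ + j)).2 _ h'
  rw [← mul_prod_erase (range (2 * h + 2)) _ (mem_range.2 hj)]
  have h2 : ∏ x ∈ (range (2 * h + 2)).erase j, fa b t L (c₀ + x) ((a : ℝ) / q) ≤ 1 :=
    prod_le_one (fun _ _ => fa_nonneg _ _ _ _ _) (fun _ _ => fa_le_one _ _ _ _ _)
  have h3 : 0 ≤ fa b t L (c₀ + j) ((a : ℝ) / q) := fa_nonneg _ _ _ _ _
  calc fa b t L (c₀ + j) ((a : ℝ) / q) *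
      ∏ x ∈ (range (2 * h + 2)).erase j, fa b t L (c₀ + x) ((a : ℝ) / q)
      ≤ fa b t L (c₀ + j) ((a : ℝ) / q) * 1 := by gcongr
    _ ≤ 1 - kap b := by linarith [fa_le_left b t L (c₀ + j) ((a : ℝ) / q)]

lemma blocks {b : ℕ} {t : ℕ → ℕ} (hb : 4 ≤ b) (ht : Ok b t) (q h a L : ℕ) (hq1 : 1 < q)
    (hq : q.Coprime (2 * b)) (ha : a.Coprime q) (hqh : q < b ^ h) (n : ℕ)
    (hn : n * (2 * h + 2) ≤ L) :
    ∏ j ∈ range (n * (2 * h + 2)), fa b t L j ((a : ℝ) / q) ≤ (1 - kap b) ^ n := by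
  have hb2 : 2 ≤ b := by omega
  induction n with
  | zero => simp
  | succ n ih =>
    have h0 : n * (2 * h + 2) + (2 * h + 2) ≤ L := by
      have : (n + 1) * (2 * h + 2) = n * (2 * h + 2) + (2 * h + 2) := by ring
      omega
    rw [show (n + 1) * (2 * h + 2) = n * (2 * h + 2) + (2 * h + 2) by ring, prod_range_add, pow_succ]
    have h1 := ih (by omega)
    have h2 := block hb ht q h a L (n * (2 * h + 2)) hq1 hq ha hqh h0
    have h3 : 0 ≤ 1 - kap b := by linarith [kap_lt_one hb2]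
    exact mul_le_mul h1 h2 (prod_nonneg fun _ _ => fa_nonneg _ _ _ _ _) (by positivity)

theorem t_PT : S_PT := by
  intro b hb
  have hb2 : 2 ≤ b := by omega
  refine ⟨kap b, kap_pos hb2, kap_lt_one hb2, ?_⟩
  intro t ht q h a L hq1 hq ha hqh
  have h1 : L / (2 * h + 2) * (2 * h + 2) ≤ L := Nat.div_mul_le_self _ _
  refine le_trans ?_ (blocks hb ht q h a L hq1 hq ha hqh _ h1)
  unfold Fn
  generalize hN : L / (2 * h + 2) * (2 * h + 2) = N at h1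
  obtain ⟨K, hK⟩ := Nat.exists_eq_add_of_le h1
  have h2 : ∏ c ∈ range L, fa b t L c ((a : ℝ) / q) =
      (∏ c ∈ range N, fa b t L c ((a : ℝ) / q)) *
        ∏ c ∈ range K, fa b t L (N + c) ((a : ℝ) / q) := by
    rw [← prod_range_add (fun c => fa b t L c ((a : ℝ) / q)), ← hK]
  rw [h2]
  exact mul_le_of_le_one_right (prod_nonneg fun _ _ => fa_nonneg _ _ _ _ _)
    (prod_le_one (fun _ _ => fa_nonneg _ _ _ _ _) (fun _ _ => fa_le_one _ _ _ _ _))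

end Pool.Agent.Zk20.NP2
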